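import Mathlib
import Pool.Agent.L5helper17.DR.SmallB
import Pool.Agent.N966.CV.LargeB
import Pool.Agent.N966.CV.PlacesB
import Pool.Agent.N490.CV.CoreB
import Pool.Agent.N328.CV.CoreV
import Pool.Agent.N498.CV.Redc
import Pool.Agent.N488.CV.LinkC
import Pool.Agent.N849.CV.CntC
import Pool.Agent.N265.CV.Htc
import Pool.Agent.N752.CV.UniC
import Pool.Agent.N752.CV.ZeroC
import Pool.Agent.N650.CV.FldC
import Pool.Agent.N776.CV.Sep
import Pool.Agent.N776.CV.VnC
import Pool.Agent.N297.CV.MainC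
import Pool.Agent.N572.DR.Diag
import Pool.Agent.N147.DR.Lat

/-!
# The theorem on linear systems on curves (project CV)
-/

set_option autoImplicit false

namespace Pool.Agent.L5helper17.CV

open Pool.Agent.N753.DR

theorem coreB : StmCoreB := Pool.Agent.N490.CV.CoreB.t Pool.Agent.N394.CV.typB
  (Pool.Agent.N966.CV.LargeB.t Pool.Agent.N147.DR.t Pool.Agent.N394.CV.typB)
  Pool.Agent.L5helper17.DR.smallB Pool.Agent.N966.CV.PlacesB.t

theorem coreV : StmCoreV := Pool.Agent.N328.CV.t coreB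

theorem cntC : StmCntC := Pool.Agent.N849.CVN.cntC coreV Pool.Agent.N488.CV.t Pool.Agent.N498.CV.t

theorem mainC : StmMainC := Pool.Agent.N297.CV.MainC.t Pool.Agent.N572.DR.Diag.t cntC
  Pool.Agent.N265.CV.t Pool.Agent.N752.CV.t (Pool.Agent.N752.CV.t2 Pool.Agent.N498.CV.t)
  (Pool.Agent.N650.CV.FldC.t Pool.Agent.N265.CV.t) Pool.Agent.N776.CV.t

end Pool.Agent.L5helper17.CV
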