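import Mathlib
import Pool.Agent.L5helper17.CV.Main
import Pool.Agent.N868.CV.Grow

/-!
# The linear systems `V_n` on a curve
-/

set_option autoImplicit false

namespace Pool.Agent.L5helper17.CV

open NumberField IsDedekindDomain Module Polynomial Pool.Agent.N753.DR
open scoped LinearAlgebra.Projectivization

section

variable (K A : Type) [Field K] [NumberField K] [CommRing A] [IsDomain A]
    [Algebra K A] [Algebra K[X] A] [IsScalarTower K K[X] A] [Module.Finite K[X] A]

omit [IsDomain A] in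
/-- the residue field of a closed point -/
theorem residue (I : Ideal A) (hI : I.IsMaximal) :
    ∃ (L : Type) (_ : Field L) (_ : NumberField L) (_ : Algebra K L) (ψ : A →ₐ[K] L),
      Function.Surjective ψ ∧ RingHom.ker ψ = I ∧ finrank K L = finrank K (A ⧸ I) := by
  have hft : Algebra.FiniteType K A := by
    have h1 : Algebra.FiniteType K K[X] := inferInstance
    have h2 : Algebra.FiniteType K[X] A := inferInstance
    exact Algebra.FiniteType.trans h1 h2
  have hft' : Algebra.FiniteType K (A ⧸ I) :=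
    Algebra.FiniteType.of_surjective (Ideal.Quotient.mkₐ K I) (Ideal.Quotient.mkₐ_surjective K I)
  letI : Field (A ⧸ I) := Ideal.Quotient.field I
  have hfin : Module.Finite K (A ⧸ I) := finite_of_finite_type_of_isJacobsonRing K (A ⧸ I)
  have hchar : CharZero (A ⧸ I) := charZero_of_injective_algebraMap
    (algebraMap K (A ⧸ I)).injective
  have hnf : NumberField (A ⧸ I) := by
    refine @NumberField.mk _ _ hchar ?_
    have : IsScalarTower ℚ K (A ⧸ I) := inferInstance
    exact Module.Finite.trans K (A ⧸ I)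
  exact ⟨A ⧸ I, inferInstance, hnf, inferInstance, Ideal.Quotient.mkₐ K I,
    Ideal.Quotient.mkₐ_surjective K I, by
      ext x
      simp [RingHom.mem_ker, Ideal.Quotient.eq_zero_iff_mem], rfl⟩

end

/-- the theorem for the linear systems `V_n` -/
theorem systems (K A : Type) [Field K] [NumberField K] [CommRing A] [IsDomain A]
    [Algebra K A] [Algebra K[X] A] [IsScalarTower K K[X] A] [Module.Finite K[X] A]
    [FaithfulSMul K[X] A] (hdom : IsDomain (TensorProduct K (AlgebraicClosure K) A))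
    (N : ℕ) (e : Basis (Fin N) K[X] A) (he : ∃ i, e i = 1) :
    ∃ E : ∀ n : ℕ, Set (ℙ K (Fin (N * (n + 1)) → K)),
      (∀ n : ℕ, 1 ≤ n →
        (∃ C : ℝ, ∀ U : ℝ, 0 ≤ U →
          {P : ℙ K (Fin (N * (n + 1)) → K) | P ∈ E n ∧ Height.logHeight P.rep ≤ U}.Finite ∧
          ({P : ℙ K (Fin (N * (n + 1)) → K) | P ∈ E n ∧ Height.logHeight P.rep ≤ U}.ncard : ℝ) ≤
            C * Real.exp ((N * (n + 1) : ℕ) * U - √U)) ∧
        (∀ (q : ℕ) (u : Fin q → ℕ) (g : ∀ j, Fin (u j) → A),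
          (∀ j, (Ideal.span (Set.range (g j))).IsMaximal) →
          (∀ i j, i ≠ j → Ideal.span (Set.range (g i)) ≠ Ideal.span (Set.range (g j))) →
          (∀ j, finrank K (A ⧸ Ideal.span (Set.range (g j))) ≤ 2 * n + 1) →
          ∀ (S : Finset ℕ) (κ : ℝ), 0 < κ → ∃ C : ℝ,
            ∀ (M : Type) [Field M] [NumberField M] [Algebra K M] (φ : A →ₐ[K] M)
              (P : ℙ K (Fin (N * (n + 1)) → K)), P ∉ E n → Function.Surjective φ →
              RingHom.ker φ = Ideal.span {mem (Vn (K := K) e n) P.rep} →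
              (∀ j, RingHom.ker φ ≠ Ideal.span (Set.range (g j))) →
              ∃ W : Finset (HeightOneSpectrum (𝓞 M)), (∀ w ∈ W, ∃ j, NearC S (g j) φ w) ∧
                (∑ j, (finrank K (A ⧸ Ideal.span (Set.range (g j))) : ℝ) - κ) *
                  Height.logHeight P.rep ≤ ∑ w ∈ W, lN w + C) ∧
        ∃ C : ℝ, ∀ (M : Type) [Field M] [NumberField M] [Algebra K M] (φ : A →ₐ[K] M)
            (P : ℙ K (Fin (N * (n + 1)) → K)), Function.Surjective φ →
            RingHom.ker φ = Ideal.span {mem (Vn (K := K) e n) P.rep} →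
            Height.logHeight₁ (φ (algebraMap K[X] A X)) ≤ N * Height.logHeight P.rep + C) ∧
      ∀ G : ℝ, 0 ≤ G → ∃ n₀ : ℕ, ∀ n : ℕ, n₀ ≤ n → ∃ C : ℝ,
        ∀ (M : Type) [Field M] [NumberField M] [Algebra K M] (φ : A →ₐ[K] M)
          (P : ℙ K (Fin (N * (n + 1)) → K)), P ∉ E n → Function.Surjective φ →
          RingHom.ker φ = Ideal.span {mem (Vn (K := K) e n) P.rep} →
          G * Height.logHeight P.rep ≤ Real.log |(discr M : ℝ)| + C := by
  classical
  obtain ⟨ee, hee1, hee2, hmain⟩ := mainC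
  obtain ⟨c₀, hV⟩ := Pool.Agent.N776.CV.tVnC K A N e he
  have hN1 : 1 ≤ N := by
    obtain ⟨i, _⟩ := he
    have := i.2
    omega
  have hrank : finrank K[X] A = N := by
    rw [Module.finrank_eq_card_basis e, Fintype.card_fin]
  have hlarge : ∀ n : ℕ, 1 ≤ n → ∃ (r : ℕ) (E : Set (ℙ K (Fin (N * (n + 1)) → K))),
      r ≤ N * n + c₀ ∧
      (∃ C : ℝ, ∀ U : ℝ, 0 ≤ U →
        {P : ℙ K (Fin (N * (n + 1)) → K) | P ∈ E ∧ Height.logHeight P.rep ≤ U}.Finite ∧
        ({P : ℙ K (Fin (N * (n + 1)) → K) | P ∈ E ∧ Height.logHeight P.rep ≤ U}.ncard : ℝ) ≤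
          C * Real.exp ((N * (n + 1) : ℕ) * U - √U)) ∧
      (∀ (q : ℕ) (u : Fin q → ℕ) (g : ∀ j, Fin (u j) → A),
        (∀ j, (Ideal.span (Set.range (g j))).IsMaximal) →
        (∀ i j, i ≠ j → Ideal.span (Set.range (g i)) ≠ Ideal.span (Set.range (g j))) →
        (∀ j, finrank K (A ⧸ Ideal.span (Set.range (g j))) ≤ 2 * n + 1) →
        ∀ (S : Finset ℕ) (κ : ℝ), 0 < κ → ∃ C : ℝ,
          ∀ (M : Type) [Field M] [NumberField M] [Algebra K M] (φ : A →ₐ[K] M)
            (P : ℙ K (Fin (N * (n + 1)) → K)), P ∉ E → Function.Surjective φ →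
            RingHom.ker φ = Ideal.span {mem (Vn (K := K) e n) P.rep} →
            (∀ j, RingHom.ker φ ≠ Ideal.span (Set.range (g j))) →
            ∃ W : Finset (HeightOneSpectrum (𝓞 M)), (∀ w ∈ W, ∃ j, NearC S (g j) φ w) ∧
              (∑ j, (finrank K (A ⧸ Ideal.span (Set.range (g j))) : ℝ) - κ) *
                Height.logHeight P.rep ≤ ∑ w ∈ W, lN w + C) ∧
      (∀ G : ℝ, 0 ≤ G → G * ee r + 2 * N < (N * (n + 1) : ℕ) → ∃ C : ℝ,
        ∀ (M : Type) [Field M] [NumberField M] [Algebra K M] (φ : A →ₐ[K] M)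
          (P : ℙ K (Fin (N * (n + 1)) → K)), P ∉ E → Function.Surjective φ →
          RingHom.ker φ = Ideal.span {mem (Vn (K := K) e n) P.rep} →
          G * Height.logHeight P.rep ≤ Real.log |(discr M : ℝ)| + C) ∧
      ∃ C : ℝ, ∀ (M : Type) [Field M] [NumberField M] [Algebra K M] (φ : A →ₐ[K] M)
          (P : ℙ K (Fin (N * (n + 1)) → K)), Function.Surjective φ →
          RingHom.ker φ = Ideal.span {mem (Vn (K := K) e n) P.rep} →
          Height.logHeight₁ (φ (algebraMap K[X] A X)) ≤ N * Height.logHeight P.rep + C := by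
    intro n hn
    obtain ⟨hli, hwide, hdeg⟩ := hV n hn
    obtain ⟨r, E, ⟨c, hc1, hc2⟩, h1, h2, h3, h4⟩ := hmain K A hdom (N * (n + 1))
      (Nat.mul_pos hN1 (Nat.succ_pos n)) (Vn (K := K) e n) hli
    refine ⟨r, E, ?_, h1, ?_, ?_, ?_⟩
    · rw [← hc2]
      exact hdeg c hc1
    · intro q u g hmax hdist hd S κ hκ
      refine h2 q u g hmax hdist (fun j => ?_) S κ hκ
      obtain ⟨L, i1, i2, i3, ψ, hψ1, hψ2, hψ3⟩ := residue K A _ (hmax j)
      exact ⟨L, i1, i2, i3, ψ, hψ1, hψ2, hwide L ψ hψ1 (by rw [hψ3]; exact hd j)⟩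
    · intro G hG hGr
      rw [hrank] at h3
      exact h3 G hG hGr
    · rw [hrank] at h4
      exact h4
  choose r E hr hE1 hE2 hE3 hE4 using hlarge
  refine ⟨fun n => if h : 1 ≤ n then E n h else ∅, fun n hn => ?_, fun G hG => ?_⟩
  · simp only [dif_pos hn]
    exact ⟨hE1 n hn, hE2 n hn, hE4 n hn⟩
  · obtain ⟨n0, hn0⟩ := Pool.Agent.N868.CV.grow ee hee1 hee2 N hN1 c₀ G
    refine ⟨max n0 1, fun n hn => ?_⟩
    have hn1 : 1 ≤ n := (le_max_right _ _).trans hn
    simp only [dif_pos hn1]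
    exact hE3 n hn1 G hG (hn0 n ((le_max_left _ _).trans hn) (r n hn1) (hr n hn1))

end Pool.Agent.L5helper17.CV
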